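import Pool.Agent.Helper40.AV.St
import Pool.Agent.Helper69.EK.Selberg
import Pool.Agent.Helper44.MertensInterval

/-! Project AV (part of KS, MP_768c9c_nt), module AV3a: lower bounds for Selberg's sum. -/

set_option autoImplicit false

namespace Pool.Agent.Helper7.AV

open Finset Pool.Agent.Helper40.AV

/-- all primes of `m` are at most `z` -/
def Sm (z : ℝ) (m : ℕ) : Prop := ∀ r : ℕ, r.Prime → r ∣ m → (r : ℝ) ≤ z

open Classical in
/-- the sum over smooth integers is at most Selberg's sum -/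
theorem smooth_le (z Y : ℝ) :
    ∑ m ∈ (Icc 1 ⌊Y⌋₊).filter (fun m => Sm z m), (1 : ℝ) / m ≤ GG z Y := by
  set R := ⌊Y⌋₊ with hR
  have hGG : GG z Y = ∑ l ∈ (Icc 1 R).filter (fun m => Squarefree m ∧ Sm z m),
      (1 : ℝ) / l.totient := by
    unfold GG Sm
    rfl
  rw [hGG]
  have hmaps : ∀ m ∈ (Icc 1 R).filter (fun m => Sm z m), (∏ p ∈ m.primeFactors, p) ∈
      (Icc 1 R).filter (fun m => Squarefree m ∧ Sm z m) := by
    intro m hm
    rw [Finset.mem_filter, Finset.mem_Icc] at hm
    rw [Finset.mem_filter, Finset.mem_Icc]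
    have hdvd := Nat.prod_primeFactors_dvd m
    have hpos : 0 < ∏ p ∈ m.primeFactors, p := Nat.pos_of_dvd_of_pos hdvd (by omega)
    exact ⟨⟨hpos, (Nat.le_of_dvd (by omega) hdvd).trans hm.1.2⟩,
      Pool.Agent.Helper69.EK.squarefree_prod_primes _
        (fun p hp => Nat.prime_of_mem_primeFactors hp),
      fun r hr hrd => hm.2 r hr (hrd.trans hdvd)⟩
  rw [← Finset.sum_fiberwise_of_maps_to hmaps]
  apply Finset.sum_le_sum
  intro l hl
  rw [Finset.mem_filter] at hl
  rw [Pool.Agent.Helper69.EK.totient_sqf hl.2.1]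
  refine le_trans ?_ (Pool.Agent.Helper69.EK.claim_rad l.primeFactors
    (fun p hp => Nat.prime_of_mem_primeFactors hp) R)
  apply Finset.sum_le_sum_of_subset_of_nonneg
  · intro m hm
    rw [Finset.mem_filter, Finset.mem_filter] at hm
    rw [Finset.mem_filter]
    refine ⟨hm.1.1, ?_⟩
    rw [← hm.2, Nat.primeFactors_prod_primeFactors]
  · intro _ _ _
    positivity

theorem harm_ge (n : ℕ) : Real.log ((n : ℝ) + 1) ≤ ∑ k ∈ Icc 1 n, (1 : ℝ) / k := by
  have h := log_add_one_le_harmonic n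
  rw [harmonic_eq_sum_Icc] at h
  push_cast at h
  simpa [one_div] using h

theorem harm_le (n : ℕ) : ∑ k ∈ Icc 1 n, (1 : ℝ) / k ≤ 1 + Real.log n := by
  have h := harmonic_le_one_add_log n
  rw [harmonic_eq_sum_Icc] at h
  push_cast at h
  simpa [one_div] using h

theorem ggtriv : GGtriv := by
  classical
  intro z Y hY hYz
  refine le_trans ?_ (smooth_le z Y)
  have h1 : (Icc 1 ⌊Y⌋₊).filter (fun m => Sm z m) = Icc 1 ⌊Y⌋₊ := by
    apply Finset.filter_true_of_mem
    intro m hm r _ hrm
    rw [Finset.mem_Icc] at hm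
    have h2 : r ≤ m := Nat.le_of_dvd (by omega) hrm
    have h3 : (m : ℝ) ≤ Y := (Nat.le_floor_iff (by linarith)).1 hm.2
    have h4 : (r : ℝ) ≤ m := by exact_mod_cast h2
    linarith
  rw [h1]
  refine le_trans ?_ (harm_ge _)
  exact Real.log_le_log (by linarith) (Nat.lt_floor_add_one Y).le

theorem multiples_le {N p : ℕ} (hp : 1 ≤ p) (hpN : p ≤ N) :
    ∑ m ∈ Icc 1 N, (if p ∣ m then (1 : ℝ) / m else 0) ≤
      1 / p * (1 + Real.log N - Real.log p) := by
  have h1 : ∑ m ∈ Icc 1 N, (if p ∣ m then (1 : ℝ) / m else 0) =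
      ∑ k ∈ Icc 1 (N / p), (1 : ℝ) / p * (1 / k) := by
    rw [← Finset.sum_filter]
    symm
    refine Finset.sum_bij (fun k _ => p * k) ?_ ?_ ?_ ?_
    · intro k hk
      rw [Finset.mem_Icc] at hk
      rw [Finset.mem_filter, Finset.mem_Icc]
      refine ⟨⟨Nat.mul_pos hp hk.1, ?_⟩, dvd_mul_right _ _⟩
      rw [mul_comm]
      exact (Nat.le_div_iff_mul_le hp).1 hk.2
    · intro a _ b _ hab
      exact Nat.eq_of_mul_eq_mul_left hp hab
    · intro m hm
      rw [Finset.mem_filter, Finset.mem_Icc] at hm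
      obtain ⟨⟨hm1, hm2⟩, k, rfl⟩ := hm
      refine ⟨k, ?_, rfl⟩
      rw [Finset.mem_Icc]
      refine ⟨Nat.pos_of_mul_pos_left hm1, ?_⟩
      rw [Nat.le_div_iff_mul_le hp, mul_comm]
      exact hm2
    · intro k _
      push_cast
      rw [one_div_mul_one_div]
  rw [h1, ← Finset.mul_sum]
  apply mul_le_mul_of_nonneg_left _ (by positivity)
  refine (harm_le _).trans ?_
  have hq : 1 ≤ N / p := (Nat.one_le_div_iff hp).2 hpN
  have h2 : ((N / p : ℕ) : ℝ) ≤ (N : ℝ) / p := Nat.cast_div_le
  have h3 : Real.log ((N / p : ℕ) : ℝ) ≤ Real.log N - Real.log p := by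
    rw [← Real.log_div (by norm_cast; omega) (by norm_cast; omega)]
    exact Real.log_le_log (by exact_mod_cast hq) h2
  linarith

theorem gglow : GGlow := by
  classical
  obtain ⟨C, hC, hMI⟩ := Pool.Agent.Helper44.mertens_interval
  obtain ⟨C0, hC0, hMF⟩ := Pool.Agent.Helper44.mertens_first
  refine ⟨2 * C + (2 * C0 + Real.log 2) + (Real.log 2 + C / Real.log 2), ?_⟩
  intro z u hz hu1 hu2
  have hz0 : (0 : ℝ) < z := by linarith
  set L := Real.log z with hL
  have hL2 : Real.log 2 ≤ L := Real.log_le_log (by norm_num) hz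
  have hlog2 : 0 < Real.log 2 := Real.log_pos (by norm_num)
  have hL0 : 0 < L := by linarith
  set Y := z ^ u with hY
  have hlogY : Real.log Y = u * L := by rw [hY, Real.log_rpow hz0]
  have hzY : z ≤ Y := by
    rw [hY]
    calc z = z ^ (1 : ℝ) := (Real.rpow_one z).symm
      _ ≤ z ^ u := Real.rpow_le_rpow_of_exponent_le (by linarith) hu1
  set N := ⌊Y⌋₊ with hN
  set M := ⌊z⌋₊ with hM
  have hM2 : 2 ≤ M := Nat.le_floor (by exact_mod_cast hz)
  have hMN : M ≤ N := Nat.floor_le_floor hzY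
  have hN0 : (0 : ℝ) < N := by
    have : (2 : ℝ) ≤ N := by exact_mod_cast hM2.trans hMN
    linarith
  have hNY : (N : ℝ) ≤ Y := Nat.floor_le (by linarith)
  set P := (Ioc M N).filter Nat.Prime with hP
  -- the smooth part
  refine le_trans ?_ (smooth_le z Y)
  have hsplit : ∑ m ∈ Icc 1 N, (1 : ℝ) / m =
      ∑ m ∈ (Icc 1 N).filter (fun m => Sm z m), (1 : ℝ) / m +
      ∑ m ∈ (Icc 1 N).filter (fun m => ¬ Sm z m), (1 : ℝ) / m :=
    (Finset.sum_filter_add_sum_filter_not _ _ _).symm
  have hns : ∑ m ∈ (Icc 1 N).filter (fun m => ¬ Sm z m), (1 : ℝ) / m ≤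
      ∑ p ∈ P, 1 / (p : ℝ) * (1 + Real.log N - Real.log p) := by
    calc ∑ m ∈ (Icc 1 N).filter (fun m => ¬ Sm z m), (1 : ℝ) / m
        ≤ ∑ m ∈ (Icc 1 N).filter (fun m => ¬ Sm z m), ∑ p ∈ P,
            (if p ∣ m then (1 : ℝ) / m else 0) := by
          apply Finset.sum_le_sum
          intro m hm
          rw [Finset.mem_filter, Finset.mem_Icc] at hm
          obtain ⟨⟨hm1, hm2⟩, hm3⟩ := hm
          unfold Sm at hm3
          push Not at hm3
          obtain ⟨r, hr, hrm, hrz⟩ := hm3
          have hrP : r ∈ P := by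
            rw [hP, Finset.mem_filter, Finset.mem_Ioc]
            refine ⟨⟨(Nat.floor_lt hz0.le).2 hrz, ?_⟩, hr⟩
            exact (Nat.le_of_dvd (by omega) hrm).trans hm2
          calc (1 : ℝ) / m = if r ∣ m then (1 : ℝ) / m else 0 := by rw [if_pos hrm]
            _ ≤ _ := Finset.single_le_sum (f := fun p : ℕ => if p ∣ m then (1 : ℝ) / m else 0)
              (fun p _ => by
                split_ifs
                · positivity
                · exact le_refl _) hrP
      _ ≤ ∑ m ∈ Icc 1 N, ∑ p ∈ P, (if p ∣ m then (1 : ℝ) / m else 0) := by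
          apply Finset.sum_le_sum_of_subset_of_nonneg (Finset.filter_subset _ _)
          intro m _ _
          apply Finset.sum_nonneg
          intro p _
          split_ifs
          · positivity
          · exact le_refl _
      _ = ∑ p ∈ P, ∑ m ∈ Icc 1 N, (if p ∣ m then (1 : ℝ) / m else 0) := Finset.sum_comm
      _ ≤ _ := by
          apply Finset.sum_le_sum
          intro p hp
          rw [hP, Finset.mem_filter, Finset.mem_Ioc] at hp
          exact multiples_le hp.2.one_le hp.1.2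
  have hA := (abs_le.1 (hMI z Y hz hzY)).2
  have hlogdiv : Real.log (Real.log Y / Real.log z) = Real.log u := by
    rw [hlogY, ← hL, mul_div_assoc, div_self hL0.ne', mul_one]
  rw [hlogdiv, ← hL] at hA
  set A := ∑ p ∈ P, (1 : ℝ) / p with hAdef
  set B := ∑ p ∈ P, Real.log p / p with hBdef
  have hexp : ∑ p ∈ P, 1 / (p : ℝ) * (1 + Real.log N - Real.log p) =
      (1 + Real.log N) * A - B := by
    rw [hAdef, hBdef, Finset.mul_sum, ← Finset.sum_sub_distrib]
    apply Finset.sum_congr rfl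
    intro p _
    ring
  have hA0 : 0 ≤ A := Finset.sum_nonneg fun _ _ => by positivity
  have hB1 := (abs_le.1 (hMF N (by omega))).1
  have hB2 := (abs_le.1 (hMF M (by omega))).2
  have hBsplit : ∑ q ∈ (Ioc 0 N).filter Nat.Prime, Real.log q / q =
      ∑ q ∈ (Ioc 0 M).filter Nat.Prime, Real.log q / q + B := by
    rw [hBdef, hP, Finset.sum_filter, Finset.sum_filter, Finset.sum_filter]
    rw [Finset.sum_Ioc_consecutive _ (Nat.zero_le _) hMN]
  have hlogM : Real.log M ≤ L := Real.log_le_log (by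
    have : (2 : ℝ) ≤ M := by exact_mod_cast hM2
    linarith) (Nat.floor_le hz0.le)
  have hlogN : Real.log N ≤ u * L := by
    rw [← hlogY]
    exact Real.log_le_log hN0 hNY
  have hlogN' : u * L - Real.log 2 ≤ Real.log N := by
    rw [← hlogY, ← Real.log_div (by linarith) (by norm_num)]
    apply Real.log_le_log (by linarith)
    have h1 := Nat.lt_floor_add_one Y
    rw [← hN] at h1
    have h2 : (2 : ℝ) ≤ N := by exact_mod_cast hM2.trans hMN
    linarith
  have hH := harm_ge N
  have hH' : Real.log Y ≤ Real.log ((N : ℝ) + 1) :=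
    Real.log_le_log (by linarith) (Nat.lt_floor_add_one Y).le
  have hlogu : 0 ≤ Real.log u := Real.log_nonneg hu1
  have hlogu2 : Real.log u ≤ Real.log 2 := Real.log_le_log (by linarith) hu2
  have hdivL : C / L ≤ C / Real.log 2 := div_le_div_of_nonneg_left hC.le hlog2 hL2
  have hmain : (1 + Real.log N) * A ≤ (1 + u * L) * (Real.log u + C / L) := by
    apply mul_le_mul _ (by linarith) hA0 (by positivity)
    linarith
  have hCL : u * L * (C / L) = u * C := by
    field_simp
  have huC : u * C ≤ 2 * C := by nlinarith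
  rw [hexp] at hns
  rw [hlogY] at hH'
  have e1 : (1 + u * L) * (Real.log u + C / L) = Real.log u + C / L + u * L * Real.log u +
      u * L * (C / L) := by ring
  rw [e1, hCL] at hmain
  have e2 : (2 * u - 1 - u * Real.log u) * L = 2 * (u * L) - L - u * L * Real.log u := by ring
  rw [e2]
  linarith

end Pool.Agent.Helper7.AV
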